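import Pool.Agent.StarGame.Basic

namespace Pool.Agent.StarGame

open Finset

/-- endpoints of an edge -/
def ends {n : ℕ} (e : Sym2 (Fin n)) : Finset (Fin n) := univ.filter (fun v => v ∈ e)

/-- level of an edge: the maximum Avoider degree of its endpoints -/
def lvl {n : ℕ} (A : Finset (Sym2 (Fin n))) (e : Sym2 (Fin n)) : ℕ := (ends e).sup (deg A)

/-- vertices of degree at least `i` -/
def hiV {n : ℕ} (A : Finset (Sym2 (Fin n))) (i : ℕ) : Finset (Fin n) :=
  univ.filter (fun v => i ≤ deg A v)

theorem ends_card {n : ℕ} (e : Sym2 (Fin n)) : (ends e).card ≤ 2 := by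
  induction e using Sym2.ind with
  | _ x y =>
    unfold ends
    refine (Finset.card_le_card (t := {x, y}) ?_).trans Finset.card_le_two
    intro v hv
    simpa using hv

theorem exists_of_le_lvl {n : ℕ} {A : Finset (Sym2 (Fin n))} {e : Sym2 (Fin n)} {i : ℕ}
    (h : i ≤ lvl A e) : ∃ v ∈ e, i ≤ deg A v := by
  have hne : (ends e).Nonempty := by
    induction e using Sym2.ind with
    | _ x y => exact ⟨x, by unfold ends; simp⟩
  obtain ⟨v, hv, hv2⟩ := Finset.exists_mem_eq_sup _ hne (deg A)
  unfold lvl at h
  rw [hv2] at h
  exact ⟨v, by unfold ends at hv; simpa using hv, h⟩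

theorem deg_le_lvl {n : ℕ} {A : Finset (Sym2 (Fin n))} {e : Sym2 (Fin n)} {v : Fin n}
    (h : v ∈ e) : deg A v ≤ lvl A e := by
  unfold lvl
  exact Finset.le_sup (f := deg A) (by unfold ends; simpa using h)

theorem deg_insert_le {n : ℕ} (A : Finset (Sym2 (Fin n))) (e : Sym2 (Fin n)) (v : Fin n) :
    deg (insert e A) v ≤ deg A v + 1 := by
  unfold deg
  rw [Finset.filter_insert]
  split_ifs
  · exact Finset.card_insert_le _ _
  · omega

theorem deg_insert_of_notMem {n : ℕ} {A : Finset (Sym2 (Fin n))} {e : Sym2 (Fin n)} {v : Fin n}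
    (h : v ∉ e) : deg (insert e A) v = deg A v := by
  unfold deg
  rw [Finset.filter_insert, if_neg h]

theorem count_touch {n : ℕ} {A F : Finset (Sym2 (Fin n))} {i : ℕ}
    (h : ∀ e ∈ F, i ≤ lvl A e) : F.card ≤ (hiV A i).card * n := by
  have h1 : F ⊆ (hiV A i).biUnion (fun v => univ.image (fun w => s(v, w))) := by
    intro e he
    obtain ⟨v, hv, hv2⟩ := exists_of_le_lvl (h e he)
    rw [Finset.mem_biUnion]
    refine ⟨v, by unfold hiV; simpa using hv2, ?_⟩
    obtain ⟨w, hw⟩ := Sym2.mem_iff_exists.mp hv
    rw [Finset.mem_image]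
    exact ⟨w, Finset.mem_univ _, hw.symm⟩
  refine (Finset.card_le_card h1).trans ?_
  refine Finset.card_biUnion_le_card_mul _ _ _ ?_
  intro v _
  refine Finset.card_image_le.trans ?_
  simp

/-- ceiling of `x / (b+1)` -/
def cd (b x : ℕ) : ℕ := (x + b) / (b + 1)

theorem cd_mono {b x y : ℕ} (h : x ≤ y) : cd b x ≤ cd b y :=
  Nat.div_le_div_right (by omega)

theorem cd_step {b x y : ℕ} (hx : 1 ≤ x) (hy : y = x - 1 - min b (x - 1)) :
    cd b y + 1 ≤ cd b x := by
  unfold cd
  by_cases h : b + 1 ≤ x
  · have h1 : x + b = (y + b) + (b + 1) := by omega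
    rw [h1, Nat.add_div_right _ (by omega)]
  · have h1 : y = 0 := by omega
    rw [h1, Nat.zero_add, Nat.div_eq_of_lt (by omega)]
    have : 1 ≤ (x + b) / (b + 1) := (Nat.one_le_div_iff (by omega)).mpr (by omega)
    omega

theorem avoider_greedy {n k b m r : ℕ} (a : ℕ → ℕ) (ha0 : n ≤ a 0)
    (hmk : m + 1 ≤ k)
    (hend : ∀ f, 1 ≤ f → f % (b + 1) = r → f ≤ a m * n → f ≤ b + 1 ∧ m + 2 ≤ k) :
    ∀ (N : ℕ) (A F : Finset (Sym2 (Fin n))), F.card ≤ N → (F = ∅ ∨ F.card % (b + 1) = r) →
      (∀ v, deg A v ≤ m) →
      (∀ i, i < m → (hiV A (i + 1)).card + 2 * cd b (min F.card (a i * n)) ≤ a (i + 1)) →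
      AvoiderWins b (HasStar k) A F := by
  intro N
  induction N with
  | zero =>
    intro A F h _ h1 _
    have : F = ∅ := Finset.card_eq_zero.mp (by omega)
    subst this
    rw [av_empty]
    rintro ⟨v, hv⟩
    have := h1 v
    omega
  | succ N ih =>
    intro A F hN hr h1 h2
    by_cases hF : F = ∅
    · subst hF
      rw [av_empty]
      rintro ⟨v, hv⟩
      have := h1 v
      omega
    have hr' : F.card % (b + 1) = r := by
      rcases hr with h | h
      · exact absurd h hF
      · exact h
    have hpos : 1 ≤ F.card := Finset.card_pos.mpr (Finset.nonempty_iff_ne_empty.mpr hF)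
    rw [av_step hF]
    obtain ⟨e, he, hmin⟩ := Finset.exists_min_image F (lvl A) (Finset.nonempty_iff_ne_empty.mpr hF)
    refine ⟨e, he, fun B hB hBc => ?_⟩
    have hce : (F.erase e).card + 1 = F.card := Finset.card_erase_add_one he
    have hc2 : (F.erase e \ B).card = F.card - 1 - min b (F.card - 1) := by
      rw [Finset.card_sdiff_of_subset hB, hBc]
      have : (F.erase e).card = F.card - 1 := by omega
      rw [this]
    -- bound for the number of high vertices
    have hhi : ∀ i, i ≤ m → (hiV A i).card ≤ a i := by
      intro i hi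
      rcases Nat.eq_zero_or_pos i with h0 | h0
      · subst h0
        refine (Finset.card_le_univ _).trans ?_
        rw [Fintype.card_fin]
        exact ha0
      · obtain ⟨j, rfl⟩ : ∃ j, i = j + 1 := ⟨i - 1, by omega⟩
        have := h2 j (by omega)
        omega
    have hall : ∀ i, i ≤ m → i ≤ lvl A e → F.card ≤ a i * n := by
      intro i hi hle
      exact (count_touch (fun e' he' => hle.trans (hmin e' he'))).trans
        (Nat.mul_le_mul_right _ (hhi i hi))
    by_cases hsmall : F.card ≤ a m * n
    · obtain ⟨h3, h4⟩ := hend _ hpos hr' hsmall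
      have h5 : F.erase e \ B = ∅ := by
        rw [← Finset.card_eq_zero, hc2]
        omega
      rw [h5, av_empty]
      rintro ⟨v, hv⟩
      have e1 := h1 v
      have e2 := deg_insert_le A e v
      omega
    · have hlt : lvl A e < m := by
        by_contra hc
        exact hsmall (hall m le_rfl (by omega))
      apply ih
      · omega
      · by_cases h3 : b + 1 ≤ F.card
        · right
          have : F.card = (F.erase e \ B).card + (b + 1) := by omega
          rw [this, Nat.add_mod_right] at hr'
          exact hr'
        · left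
          rw [← Finset.card_eq_zero, hc2]
          omega
      · intro v
        by_cases hv : v ∈ e
        · have e1 := deg_le_lvl (A := A) hv
          have e2 := deg_insert_le A e v
          omega
        · rw [deg_insert_of_notMem hv]
          exact h1 v
      · intro i hi
        have e0 := h2 i hi
        by_cases hie : i ≤ lvl A e
        · have e1 := hall i hi.le hie
          rw [min_eq_left e1] at e0
          have e2 : cd b (min (F.erase e \ B).card (a i * n)) + 1 ≤ cd b F.card :=
            (Nat.add_le_add_right (cd_mono (min_le_left _ _)) 1).trans (cd_step hpos hc2)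
          have e3 : (hiV (insert e A) (i + 1)).card ≤ (hiV A (i + 1)).card + 2 := by
            refine (Finset.card_le_card (t := hiV A (i + 1) ∪ ends e) ?_).trans
              ((Finset.card_union_le _ _).trans (Nat.add_le_add_left (ends_card e) _))
            intro v hv
            rw [Finset.mem_union]
            by_cases hve : v ∈ e
            · right; unfold ends; simpa using hve
            · left
              unfold hiV at hv ⊢
              rw [Finset.mem_filter] at hv ⊢
              rw [deg_insert_of_notMem hve] at hv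
              exact hv
          omega
        · have e2 : cd b (min (F.erase e \ B).card (a i * n)) ≤ cd b (min F.card (a i * n)) := by
            apply cd_mono
            apply min_le_min_right
            omega
          have e3 : (hiV (insert e A) (i + 1)).card ≤ (hiV A (i + 1)).card := by
            apply Finset.card_le_card
            intro v hv
            unfold hiV at hv ⊢
            rw [Finset.mem_filter] at hv ⊢
            by_cases hve : v ∈ e
            · exfalso
              have e4 := deg_le_lvl (A := A) hve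
              have e5 := deg_insert_le A e v
              have e6 := hv.2
              omega
            · rw [deg_insert_of_notMem hve] at hv
              exact hv
          omega

/-- the sequence `a_0 = n`, `a_{i+1} = 2 ⌈a_i n / (b+1)⌉` -/
def aSeq (n b : ℕ) : ℕ → ℕ
  | 0 => n
  | i + 1 => 2 * cd b (aSeq n b i * n)

theorem avoider_star {n k b m : ℕ} (hmk : m + 1 ≤ k)
    (hend : ∀ f, 1 ≤ f → f % (b + 1) = n.choose 2 % (b + 1) → f ≤ aSeq n b m * n →
      f ≤ b + 1 ∧ m + 2 ≤ k) : AvoiderWinsStar n k b := by
  unfold AvoiderWinsStar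
  refine avoider_greedy (n := n) (aSeq n b) le_rfl hmk hend (board n).card ∅ (board n) le_rfl
    (Or.inr (by rw [board_card])) (fun v => by unfold deg; simp) ?_
  intro i hi
  have h1 : (hiV (∅ : Finset (Sym2 (Fin n))) (i + 1)).card = 0 := by
    rw [Finset.card_eq_zero]
    unfold hiV deg
    simp
  rw [h1, Nat.zero_add]
  show _ ≤ 2 * cd b (aSeq n b i * n)
  exact Nat.mul_le_mul_left _ (cd_mono (min_le_right _ _))

end Pool.Agent.StarGame
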