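import Pool.Agent.StarGame.Defs

namespace Pool.Agent.StarGame

open Finset

section Game

variable {E : Type*} [DecidableEq E]

theorem enf_empty {b : ℕ} {L : Finset E → Prop} {A : Finset E} :
    EnforcerWins b L A ∅ ↔ L A := by
  rw [EnforcerWins]; simp

theorem enf_step {b : ℕ} {L : Finset E → Prop} {A F : Finset E} (hF : F ≠ ∅) :
    EnforcerWins b L A F ↔ ∀ e, e ∈ F → ∃ B, B ⊆ F.erase e ∧ B.card = min b (F.erase e).card ∧
      EnforcerWins b L (insert e A) ((F.erase e) \ B) := by
  rw [EnforcerWins]; simp [hF]

theorem av_empty {b : ℕ} {L : Finset E → Prop} {A : Finset E} :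
    AvoiderWins b L A ∅ ↔ ¬ L A := by
  rw [AvoiderWins]; simp

theorem av_step {b : ℕ} {L : Finset E → Prop} {A F : Finset E} (hF : F ≠ ∅) :
    AvoiderWins b L A F ↔ ∃ e, ∃ _he : e ∈ F, ∀ B, B ⊆ F.erase e →
      B.card = min b (F.erase e).card → AvoiderWins b L (insert e A) ((F.erase e) \ B) := by
  rw [AvoiderWins]; simp [hF]

/-- Determinacy. -/
theorem av_iff_not_enf {b : ℕ} {L : Finset E → Prop} :
    ∀ (n : ℕ) (A F : Finset E), F.card ≤ n → (AvoiderWins b L A F ↔ ¬ EnforcerWins b L A F) := by
  intro n
  induction n with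
  | zero =>
    intro A F h
    have : F = ∅ := Finset.card_eq_zero.mp (by omega)
    subst this
    rw [av_empty, enf_empty]
  | succ n ih =>
    intro A F h
    by_cases hF : F = ∅
    · subst hF; rw [av_empty, enf_empty]
    · rw [av_step hF, enf_step hF]
      push Not
      constructor
      · rintro ⟨e, he, h2⟩
        refine ⟨e, he, fun B hB hc => ?_⟩
        refine (ih _ _ ?_).mp (h2 B hB hc)
        have h3 := Finset.card_erase_lt_of_mem he
        have h4 : (F.erase e \ B).card ≤ (F.erase e).card :=
          Finset.card_le_card Finset.sdiff_subset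
        omega
      · rintro ⟨e, he, h2⟩
        refine ⟨e, he, fun B hB hc => ?_⟩
        refine (ih _ _ ?_).mpr (h2 B hB hc)
        have h3 := Finset.card_erase_lt_of_mem he
        have h4 : (F.erase e \ B).card ≤ (F.erase e).card :=
          Finset.card_le_card Finset.sdiff_subset
        omega

/-- If `L` is monotone and Avoider has already lost, Enforcer wins. -/
theorem enf_of_lose {b : ℕ} {L : Finset E → Prop} (hL : ∀ A A', A ⊆ A' → L A → L A') :
    ∀ (n : ℕ) (A F : Finset E), F.card ≤ n → L A → EnforcerWins b L A F := by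
  intro n
  induction n with
  | zero =>
    intro A F h hA
    have : F = ∅ := Finset.card_eq_zero.mp (by omega)
    subst this
    rwa [enf_empty]
  | succ n ih =>
    intro A F h hA
    by_cases hF : F = ∅
    · subst hF; rwa [enf_empty]
    · rw [enf_step hF]
      intro e he
      obtain ⟨B, hB, hc⟩ := Finset.exists_subset_card_eq (s := F.erase e)
        (n := min b (F.erase e).card) (min_le_right _ _)
      refine ⟨B, hB, hc, ih _ _ ?_ (hL _ _ (Finset.subset_insert _ _) hA)⟩
      have h3 := Finset.card_erase_lt_of_mem he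
      have h4 : (F.erase e \ B).card ≤ (F.erase e).card :=
        Finset.card_le_card Finset.sdiff_subset
      omega

end Game

theorem deg_mono {n : ℕ} {A A' : Finset (Sym2 (Fin n))} (h : A ⊆ A') (v : Fin n) :
    deg A v ≤ deg A' v :=
  Finset.card_le_card (Finset.filter_subset_filter _ h)

theorem hasStar_mono {n k : ℕ} (A A' : Finset (Sym2 (Fin n))) (h : A ⊆ A') (hA : HasStar k A) :
    HasStar k A' := by
  obtain ⟨v, hv⟩ := hA
  exact ⟨v, hv.trans (deg_mono h v)⟩

theorem board_card (n : ℕ) : (board n).card = n.choose 2 := by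
  unfold board
  rw [SimpleGraph.card_edgeFinset_top_eq_card_choose_two]
  simp

theorem mem_board {n : ℕ} (x y : Fin n) : s(x, y) ∈ board n ↔ x ≠ y := by
  unfold board
  simp

/-- determinacy for the star game -/
theorem avoiderWinsStar_iff (n k b : ℕ) : AvoiderWinsStar n k b ↔ ¬ EnforcerWinsStar n k b :=
  av_iff_not_enf _ _ _ le_rfl

end Pool.Agent.StarGame
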