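import Mathlib

/-!
# The strict Avoider–Enforcer game, and the `k`-star game on `K_n`
-/

namespace Pool.Agent.StarGame

open Finset

section Game

variable {E : Type*} [DecidableEq E]

/-- The strict `(1 : b)` Avoider–Enforcer game, position with *Avoider to move*:
`A` is the set of elements claimed by Avoider so far and `F` is the set of free elements.
`Lose A` says that a final set `A` of Avoider is losing for him.
`EnforcerWins b Lose A F` : Enforcer has a winning strategy from this position.
If no element is free the game is over and Enforcer wins iff `Lose A`.  Otherwise Avoider claims one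
free element `e` (Enforcer must have an answer to each of them) and Enforcer claims a set `B` of
exactly `b` of the remaining elements (all of them if fewer remain). -/
def EnforcerWins (b : ℕ) (Lose : Finset E → Prop) (A F : Finset E) : Prop :=
  if F = ∅ then Lose A
  else ∀ e, e ∈ F → ∃ B, B ⊆ F.erase e ∧ B.card = min b (F.erase e).card ∧
    EnforcerWins b Lose (insert e A) ((F.erase e) \ B)
termination_by F.card
decreasing_by
  rename_i h2
  have := Finset.card_erase_lt_of_mem h2
  have h3 : (F.erase e \ B).card ≤ (F.erase e).card := Finset.card_le_card Finset.sdiff_subset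
  omega

/-- `AvoiderWins b Lose A F` : Avoider has a winning strategy from the position `(A, F)` with
Avoider to move, in the strict `(1 : b)` game. -/
def AvoiderWins (b : ℕ) (Lose : Finset E → Prop) (A F : Finset E) : Prop :=
  if F = ∅ then ¬ Lose A
  else ∃ e, ∃ _he : e ∈ F, ∀ B, B ⊆ F.erase e → B.card = min b (F.erase e).card →
    AvoiderWins b Lose (insert e A) ((F.erase e) \ B)
termination_by F.card
decreasing_by
  have := Finset.card_erase_lt_of_mem _he
  have h3 : (F.erase e \ B).card ≤ (F.erase e).card := Finset.card_le_card Finset.sdiff_subset
  omega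

end Game

/-- The degree of the vertex `v` in the graph with edge set `A`. -/
def deg {n : ℕ} (A : Finset (Sym2 (Fin n))) (v : Fin n) : ℕ := (A.filter (fun e => v ∈ e)).card

/-- Some vertex has degree at least `k` in the graph `A`, i.e. `A` contains the star `K_{1,k}`. -/
def HasStar {n : ℕ} (k : ℕ) (A : Finset (Sym2 (Fin n))) : Prop := ∃ v, k ≤ deg A v

/-- The board: all edges of `K_n`. -/
def board (n : ℕ) : Finset (Sym2 (Fin n)) := (⊤ : SimpleGraph (Fin n)).edgeFinset

/-- Enforcer wins the strict `(1 : b)` `k`-star game on `K_n` (Avoider starts). -/
def EnforcerWinsStar (n k b : ℕ) : Prop := EnforcerWins b (HasStar k) ∅ (board n)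

/-- Avoider wins the strict `(1 : b)` `k`-star game on `K_n` (Avoider starts). -/
def AvoiderWinsStar (n k b : ℕ) : Prop := AvoiderWins b (HasStar k) ∅ (board n)

/-- The upper threshold bias: the least `m` such that Avoider wins for every `b > m`. -/
noncomputable def fPlus (n k : ℕ) : ℕ := sInf {m : ℕ | ∀ b, m < b → AvoiderWinsStar n k b}

/-- The lower threshold bias: the greatest `m` such that Enforcer wins for every
`b` with `1 ≤ b ≤ m`. -/
noncomputable def fMinus (n k : ℕ) : ℕ :=
  sSup {m : ℕ | ∀ b, 1 ≤ b → b ≤ m → EnforcerWinsStar n k b}

end Pool.Agent.StarGame
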