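import Pool.Agent.StarGame.Basic

namespace Pool.Agent.StarGame

open Finset

section Game

variable {E : Type*} [DecidableEq E]

theorem ins_in {A F B : Finset E} {e : E} (hd : Disjoint A F) (he : e ∈ F) (hb : e ∈ B) :
    (insert e A ∩ B).card = (A ∩ B).card + 1 := by
  rw [Finset.insert_inter_of_mem hb, Finset.card_insert_of_notMem]
  intro h
  exact Finset.disjoint_left.mp hd (Finset.mem_inter.mp h).1 he

theorem ins_out {A B : Finset E} {e : E} (hb : e ∉ B) :
    (insert e A ∩ B).card = (A ∩ B).card := by
  rw [Finset.insert_inter_of_notMem hb]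

theorem era_in {F B : Finset E} {e : E} (he : e ∈ F) (hb : e ∈ B) :
    (F.erase e ∩ B).card + 1 = (F ∩ B).card := by
  rw [Finset.erase_inter, Finset.card_erase_of_mem (Finset.mem_inter.mpr ⟨he, hb⟩)]
  have : 0 < (F ∩ B).card := Finset.card_pos.mpr ⟨e, Finset.mem_inter.mpr ⟨he, hb⟩⟩
  omega

theorem era_out {F B : Finset E} {e : E} (hb : e ∉ B) :
    (F.erase e ∩ B).card = (F ∩ B).card := by
  rw [Finset.erase_inter, Finset.erase_eq_of_notMem]
  intro h
  exact hb (Finset.mem_inter.mp h).2

theorem disj_step {A F B : Finset E} {e : E} (hd : Disjoint A F) :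
    Disjoint (insert e A) (F.erase e \ B) := by
  rw [Finset.disjoint_left] at *
  intro a ha h
  rw [Finset.mem_sdiff, Finset.mem_erase] at h
  rcases Finset.mem_insert.mp ha with h1 | h1
  · exact h.1.1 h1
  · exact hd h1 h.1.2

/-- Final stage: a box with `k-1` elements of Avoider and at least `s` free elements. -/
theorem final_stage {b k s : ℕ} {L : Finset E → Prop} (hL : ∀ A A', A ⊆ A' → L A → L A')
    (X : Finset E) (hk : ∀ A, k ≤ (A ∩ X).card → L A) (hs1 : 1 ≤ s) :
    ∀ (n : ℕ) (A F : Finset E), F.card ≤ n → Disjoint A F → F.card % (b+1) = s % (b+1) →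
      k ≤ (A ∩ X).card + 1 → s ≤ (F ∩ X).card → EnforcerWins b L A F := by
  intro n
  induction n with
  | zero =>
    intro A F h _ _ _ h2
    exfalso
    have : (F ∩ X).card ≤ F.card := Finset.card_le_card Finset.inter_subset_left
    omega
  | succ n ih =>
    intro A F hn hd hr h1 h2
    have hle : (F ∩ X).card ≤ F.card := Finset.card_le_card Finset.inter_subset_left
    have hF : F ≠ ∅ := by
      rintro rfl
      have h0 : (∅ ∩ X : Finset E).card = 0 := by simp
      omega
    rw [enf_step hF]
    intro e he
    have hce : (F.erase e).card + 1 = F.card := Finset.card_erase_add_one he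
    by_cases heX : e ∈ X
    · obtain ⟨B, hB, hc⟩ := Finset.exists_subset_card_eq (s := F.erase e)
        (n := min b (F.erase e).card) (min_le_right _ _)
      refine ⟨B, hB, hc, enf_of_lose hL _ _ _ le_rfl (hk _ ?_)⟩
      rw [ins_in hd he heX]
      exact h1
    · have h3 : (F.erase e ∩ X).card = (F ∩ X).card := era_out heX
      have h4 : (F.erase e ∩ X).card ≤ (F.erase e).card :=
        Finset.card_le_card Finset.inter_subset_left
      have h5 : s + 1 ≤ F.card := by omega
      have h6 : (b + 1) ∣ F.card - s := (Nat.modEq_iff_dvd' (by omega)).mp hr.symm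
      have h7 : b + 1 ≤ F.card - s := Nat.le_of_dvd (by omega) h6
      obtain ⟨P, hP, hPc⟩ := Finset.exists_subset_card_eq (s := F.erase e ∩ X)
        (n := s) (by omega)
      have hPF : P ⊆ F.erase e := hP.trans Finset.inter_subset_left
      have h8 : (F.erase e \ P).card = (F.erase e).card - s := by
        rw [Finset.card_sdiff_of_subset hPF, hPc]
      obtain ⟨B, hB, hc⟩ := Finset.exists_subset_card_eq (s := F.erase e \ P)
        (n := b) (by omega)
      have hBF : B ⊆ F.erase e := hB.trans Finset.sdiff_subset
      have h9 : (F.erase e \ B).card = (F.erase e).card - b := by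
        rw [Finset.card_sdiff_of_subset hBF, hc]
      refine ⟨B, hBF, by rw [hc]; omega, ih _ _ (by omega) (disj_step hd) ?_ ?_ ?_⟩
      · have : F.card = (F.erase e \ B).card + (b+1) := by omega
        rw [this, Nat.add_mod_right] at hr
        exact hr
      · rw [ins_out heX]; exact h1
      · rw [← hPc]
        apply Finset.card_le_card
        intro p hp
        rw [Finset.mem_inter, Finset.mem_sdiff]
        refine ⟨⟨hPF hp, fun hpB => ?_⟩, (Finset.mem_inter.mp (hP hp)).2⟩
        exact (Finset.mem_sdiff.mp (hB hpB)).2 hp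

variable {ι : Type*} [DecidableEq ι]

/-- potential of one box -/
def psi (box : ι → Finset E) (w j h : ℕ) (A F : Finset E) (x : ι) : ℕ :=
  (if (A ∩ box x).card = j then (F ∩ box x).card + j - h else 0) + w * ((A ∩ box x).card - j)

omit [DecidableEq ι] in
theorem psi_sum_le {box : ι → Finset E} {w j h k : ℕ} {A F : Finset E} {S : Finset ι}
    (hk : ∀ x ∈ S, (A ∩ box x).card ≤ k) :
    ∑ x ∈ S, psi box w j h A F x ≤
      (∑ x ∈ S, if (A ∩ box x).card = j then (F ∩ box x).card + j - h else 0) +
        w * (k * (S.filter (fun x => j + 1 ≤ (A ∩ box x).card)).card) := by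
  unfold psi
  rw [Finset.sum_add_distrib, ← Finset.mul_sum]
  apply Nat.add_le_add_left
  apply Nat.mul_le_mul_left
  rw [Finset.card_filter, Finset.mul_sum]
  apply Finset.sum_le_sum
  intro x hx
  have := hk x hx
  split_ifs <;> omega

/-- Promotion phase. -/
theorem phase {b k cap j g X r K : ℕ} {L : Finset E → Prop}
    (hL : ∀ A A', A ⊆ A' → L A → L A')
    (box : ι → Finset E) (S : Finset ι)
    (hdisj : ∀ x ∈ S, ∀ y ∈ S, x ≠ y → Disjoint (box x) (box y))
    (hcap : ∀ x ∈ S, (box x).card ≤ cap)
    (hk : ∀ x ∈ S, ∀ A, k ≤ (A ∩ box x).card → L A)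
    (hj : j + 1 ≤ k) (hg : 1 ≤ b)
    (hnext : ∀ A F, Disjoint A F → F.card % (b+1) = r →
      (∃ Q ⊆ S, Q.card = X ∧ ∀ x ∈ Q, j + 1 ≤ (A ∩ box x).card ∧ g ≤ (F ∩ box x).card) →
      EnforcerWins b L A F)
    (hK : (b + cap) * (k * X) + b ≤ K) :
    ∀ (n : ℕ) (A F : Finset E), F.card < n → Disjoint A F → F.card % (b+1) = r →
      (∀ x ∈ S, j ≤ (A ∩ box x).card) →
      (∀ x ∈ S, g + k ≤ (F ∩ box x).card + (A ∩ box x).card) →
      (K ≤ ∑ x ∈ S, psi box (b + cap) j (g + k) A F x + b) →
      ((∃ e ∈ F, ∀ x ∈ S, e ∉ box x) → K ≤ ∑ x ∈ S, psi box (b + cap) j (g + k) A F x) →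
      EnforcerWins b L A F := by
  intro n
  induction n with
  | zero =>
    intro A F h
    omega
  | succ n ih =>
    intro A F hn hd hr h1 h2 h3 h4
    by_cases hwin : ∃ x ∈ S, k ≤ (A ∩ box x).card
    · obtain ⟨x, hx, hx2⟩ := hwin
      exact enf_of_lose hL _ _ _ le_rfl (hk x hx A hx2)
    push Not at hwin
    by_cases hQ : X ≤ (S.filter (fun x => j + 1 ≤ (A ∩ box x).card)).card
    · obtain ⟨Q, hQs, hQc⟩ := Finset.exists_subset_card_eq hQ
      refine hnext A F hd hr ⟨Q, hQs.trans (Finset.filter_subset _ _), hQc, fun x hx => ?_⟩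
      have hx' := Finset.mem_filter.mp (hQs hx)
      have := hwin x hx'.1
      have := h2 x hx'.1
      exact ⟨hx'.2, by omega⟩
    push Not at hQ
    have hF : F ≠ ∅ := by
      rintro rfl
      have h5 := psi_sum_le (box := box) (w := b + cap) (j := j) (h := g + k) (k := k) (A := A)
        (F := ∅) (S := S) (fun x hx => (hwin x hx).le)
      have h6 : (∑ x ∈ S, if (A ∩ box x).card = j then
          ((∅ : Finset E) ∩ box x).card + j - (g + k) else 0) = 0 := by
        apply Finset.sum_eq_zero
        intro x hx
        have : ((∅ : Finset E) ∩ box x).card = 0 := by simp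
        rw [this]
        split_ifs <;> omega
      have h7 : (b + cap) * (k * (S.filter (fun x => j + 1 ≤ (A ∩ box x).card)).card) + (b + cap)
          ≤ (b + cap) * (k * X) := by
        rw [← Nat.mul_succ]
        apply Nat.mul_le_mul_left
        have : k * ((S.filter (fun x => j + 1 ≤ (A ∩ box x).card)).card + 1) ≤ k * X :=
          Nat.mul_le_mul_left _ hQ
        rw [Nat.mul_add, Nat.mul_one] at this
        omega
      omega
    rw [enf_step hF]
    intro e he
    have hce : (F.erase e).card + 1 = F.card := Finset.card_erase_add_one he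
    -- the state after Avoider's move
    have hK' : K ≤ ∑ x ∈ S, psi box (b + cap) j (g + k) (insert e A) (F.erase e) x := by
      by_cases hex : ∃ x ∈ S, e ∈ box x
      · obtain ⟨x0, hx0, hex0⟩ := hex
        have hs : ∑ x ∈ S, (psi box (b + cap) j (g + k) A F x + if x = x0 then b else 0) ≤
            ∑ x ∈ S, psi box (b + cap) j (g + k) (insert e A) (F.erase e) x := by
          apply Finset.sum_le_sum
          intro x hx
          by_cases hxx : x = x0
          · subst hxx
            rw [if_pos rfl]
            unfold psi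
            have e1 := ins_in hd he hex0
            have e2 := era_in he hex0
            have e3 : (F ∩ box x).card ≤ cap :=
              (Finset.card_le_card Finset.inter_subset_right).trans (hcap x hx)
            have e4 := h1 x hx
            have e6 : ¬ ((A ∩ box x).card + 1 = j) := by omega
            rw [e1, if_neg e6]
            have e5 : (A ∩ box x).card + 1 - j = ((A ∩ box x).card - j) + 1 := by omega
            rw [e5, Nat.mul_add, Nat.mul_one]
            split_ifs <;> omega
          · have hne : e ∉ box x := fun h =>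
              Finset.disjoint_left.mp (hdisj x hx x0 hx0 hxx) h hex0
            rw [if_neg hxx]
            unfold psi
            rw [ins_out hne, era_out hne]
            omega
        rw [Finset.sum_add_distrib, Finset.sum_ite_eq' S x0, if_pos hx0] at hs
        omega
      · push Not at hex
        have hs : ∑ x ∈ S, psi box (b + cap) j (g + k) A F x =
            ∑ x ∈ S, psi box (b + cap) j (g + k) (insert e A) (F.erase e) x := by
          apply Finset.sum_congr rfl
          intro x hx
          have hne : e ∉ box x := hex x hx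
          unfold psi
          rw [ins_out hne, era_out hne]
        rw [← hs]
        exact h4 ⟨e, he, hex⟩
    have hlev : ∀ x ∈ S, (A ∩ box x).card ≤ (insert e A ∩ box x).card ∧
        (insert e A ∩ box x).card ≤ (A ∩ box x).card + 1 ∧
        (F.erase e ∩ box x).card + (insert e A ∩ box x).card =
          (F ∩ box x).card + (A ∩ box x).card := by
      intro x hx
      by_cases hex : e ∈ box x
      · have e1 := ins_in hd he hex
        have e2 := era_in he hex
        omega
      · rw [ins_out hex, era_out hex]
        omega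
    -- at most `X` promoted boxes
    have hQ' : (S.filter (fun x => j + 1 ≤ (insert e A ∩ box x).card)).card ≤ X := by
      have : (S.filter (fun x => j + 1 ≤ (insert e A ∩ box x).card)).card ≤
          (S.filter (fun x => j + 1 ≤ (A ∩ box x).card)).card + 1 := by
        by_cases hex : ∃ x ∈ S, e ∈ box x
        · obtain ⟨x0, hx0, hex0⟩ := hex
          refine (Finset.card_le_card (t := insert x0
            (S.filter (fun x => j + 1 ≤ (A ∩ box x).card))) ?_).trans
            (Finset.card_insert_le _ _)
          intro x hx
          rw [Finset.mem_filter] at hx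
          rw [Finset.mem_insert, Finset.mem_filter]
          by_cases hxx : x = x0
          · exact Or.inl hxx
          · right
            have hne : e ∉ box x := fun h =>
              Finset.disjoint_left.mp (hdisj x hx.1 x0 hx0 hxx) h hex0
            rw [ins_out hne] at hx
            exact hx
        · push Not at hex
          refine (Finset.card_le_card ?_).trans (Nat.le_succ _)
          intro x hx
          rw [Finset.mem_filter] at hx ⊢
          rw [ins_out (hex x hx.1)] at hx
          exact hx
      omega
    -- the reservoir is large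
    have hR : b ≤ ∑ x ∈ S, if (insert e A ∩ box x).card = j then
        (F.erase e ∩ box x).card + j - (g + k) else 0 := by
      have h5 := psi_sum_le (box := box) (w := b + cap) (j := j) (h := g + k) (k := k)
        (A := insert e A) (F := F.erase e) (S := S)
        (fun x hx => by have := hlev x hx; have := hwin x hx; omega)
      have h7 : (b + cap) * (k * (S.filter (fun x => j + 1 ≤ (insert e A ∩ box x).card)).card)
          ≤ (b + cap) * (k * X) :=
        Nat.mul_le_mul_left _ (Nat.mul_le_mul_left _ hQ')
      omega
    -- edible sets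
    have hZ : ∀ x : ι, ∃ Z ⊆ F.erase e ∩ box x, Z.card =
        if (insert e A ∩ box x).card = j then
        (F.erase e ∩ box x).card + j - (g + k) else 0 := by
      intro x
      apply Finset.exists_subset_card_eq
      split_ifs <;> omega
    choose Z hZs hZc using hZ
    have hZcard : (S.biUnion Z).card = ∑ x ∈ S, if (insert e A ∩ box x).card = j then
        (F.erase e ∩ box x).card + j - (g + k) else 0 := by
      rw [Finset.card_biUnion]
      · exact Finset.sum_congr rfl (fun x _ => hZc x)
      · intro x hx y hy hxy
        exact Finset.disjoint_of_subset_left ((hZs x).trans Finset.inter_subset_right)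
          (Finset.disjoint_of_subset_right ((hZs y).trans Finset.inter_subset_right)
            (hdisj x hx y hy hxy))
    set J := (F.erase e).filter (fun a => ∀ x ∈ S, a ∉ box x) with hJ
    have hZF : S.biUnion Z ⊆ F.erase e := by
      rw [Finset.biUnion_subset]
      exact fun x _ => (hZs x).trans Finset.inter_subset_left
    have hJF : J ⊆ F.erase e := Finset.filter_subset _ _
    obtain ⟨B, hBs, hBc, hBJ⟩ : ∃ B, B ⊆ J ∪ S.biUnion Z ∧ B.card = b ∧ (B ⊆ J ∨ J ⊆ B) := by
      by_cases hbJ : b ≤ J.card
      · obtain ⟨B, hB, hc⟩ := Finset.exists_subset_card_eq hbJ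
        exact ⟨B, hB.trans Finset.subset_union_left, hc, Or.inl hB⟩
      · obtain ⟨B, hB1, hB2, hc⟩ := Finset.exists_subsuperset_card_eq
          (s := J) (t := J ∪ S.biUnion Z) (n := b) Finset.subset_union_left (by omega)
          (by
            have := Finset.card_le_card (Finset.subset_union_right (s₁ := J) (s₂ := S.biUnion Z))
            omega)
        exact ⟨B, hB2, hc, Or.inr hB1⟩
    have hBF : B ⊆ F.erase e := hBs.trans (Finset.union_subset hJF hZF)
    have hbF : b ≤ (F.erase e).card := by
      rw [← hBc]; exact Finset.card_le_card hBF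
    have h9 : (F.erase e \ B).card = (F.erase e).card - b := by
      rw [Finset.card_sdiff_of_subset hBF, hBc]
    -- B ∩ box x ⊆ Z x
    have hBx : ∀ x ∈ S, B ∩ box x ⊆ Z x := by
      intro x hx a ha
      rw [Finset.mem_inter] at ha
      rcases Finset.mem_union.mp (hBs ha.1) with h | h
      · exact absurd ha.2 ((Finset.mem_filter.mp h).2 x hx)
      · obtain ⟨y, hy, hay⟩ := Finset.mem_biUnion.mp h
        by_cases hxy : y = x
        · subst hxy; exact hay
        · exfalso
          have : a ∈ box y := (Finset.mem_inter.mp (hZs y hay)).2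
          exact Finset.disjoint_left.mp (hdisj y hy x hx hxy) this ha.2
    have hfree : ∀ x ∈ S, ((F.erase e \ B) ∩ box x).card + (B ∩ box x).card =
        (F.erase e ∩ box x).card := by
      intro x hx
      have h10 : (F.erase e \ B) ∩ box x = (F.erase e ∩ box x) \ (B ∩ box x) := by
        ext a
        simp only [Finset.mem_inter, Finset.mem_sdiff]
        tauto
      have h11 : B ∩ box x ⊆ F.erase e ∩ box x :=
        Finset.inter_subset_inter_right hBF
      rw [h10, Finset.card_sdiff_of_subset h11]
      have := Finset.card_le_card h11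
      omega
    have hBxc : ∀ x ∈ S, (B ∩ box x).card ≤ if (insert e A ∩ box x).card = j then
        (F.erase e ∩ box x).card + j - (g + k) else 0 := by
      intro x hx
      rw [← hZc x]
      exact Finset.card_le_card (hBx x hx)
    refine ⟨B, hBF, by omega, ih _ _ (by omega) (disj_step hd) ?_ ?_ ?_ ?_ ?_⟩
    · have : F.card = (F.erase e \ B).card + (b+1) := by omega
      rw [this, Nat.add_mod_right] at hr
      exact hr
    · intro x hx
      have := h1 x hx
      have := hlev x hx
      omega
    · intro x hx
      have e1 := hfree x hx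
      have e2 := hBxc x hx
      have e3 := hlev x hx
      have e4 := h2 x hx
      split_ifs at e2 <;> omega
    · have hs : ∑ x ∈ S, psi box (b + cap) j (g + k) (insert e A) (F.erase e) x ≤
          ∑ x ∈ S, (psi box (b + cap) j (g + k) (insert e A) (F.erase e \ B) x +
            (B ∩ box x).card) := by
        apply Finset.sum_le_sum
        intro x hx
        have e1 := hfree x hx
        unfold psi
        split_ifs <;> omega
      rw [Finset.sum_add_distrib] at hs
      have hs2 : ∑ x ∈ S, (B ∩ box x).card ≤ b := by
        rw [← Finset.card_biUnion]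
        · rw [← hBc]
          apply Finset.card_le_card
          rw [Finset.biUnion_subset]
          exact fun x _ => Finset.inter_subset_left
        · intro x hx y hy hxy
          exact Finset.disjoint_of_subset_left Finset.inter_subset_right
            (Finset.disjoint_of_subset_right Finset.inter_subset_right (hdisj x hx y hy hxy))
      omega
    · rintro ⟨a, ha, hax⟩
      rw [Finset.mem_sdiff] at ha
      rcases hBJ with hBJ | hBJ
      · refine hK'.trans (Finset.sum_le_sum ?_)
        intro x hx
        have e1 := hfree x hx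
        have e2 : (B ∩ box x).card = 0 := by
          rw [Finset.card_eq_zero]
          apply Finset.eq_empty_of_forall_notMem
          intro c hc
          rw [Finset.mem_inter] at hc
          exact (Finset.mem_filter.mp (hBJ hc.1)).2 x hx hc.2
        unfold psi
        split_ifs <;> omega
      · exfalso
        exact ha.2 (hBJ (Finset.mem_filter.mpr ⟨ha.1, hax⟩))

/-- Iterated promotion: from `ρ ^ d` boxes of level `m - d` (and `≥ (d+1) * H` free elements) one gets
a box of level `m` with `≥ H` free elements. -/
theorem promote {b k cap m r H ρ : ℕ} {L : Finset E → Prop}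
    (hL : ∀ A A', A ⊆ A' → L A → L A')
    (box : ι → Finset E) (T : Finset ι)
    (hdisj : ∀ x ∈ T, ∀ y ∈ T, x ≠ y → Disjoint (box x) (box y))
    (hcap : ∀ x ∈ T, (box x).card ≤ cap)
    (hk : ∀ x ∈ T, ∀ A, k ≤ (A ∩ box x).card → L A)
    (hmk : m ≤ k) (hb : 1 ≤ b)
    (hlast : ∀ A F, Disjoint A F → F.card % (b+1) = r →
      (∃ x ∈ T, m ≤ (A ∩ box x).card ∧ H ≤ (F ∩ box x).card) →
      EnforcerWins b L A F)
    (hρ : (b + cap) * (k + 1) ≤ ρ * (H - k)) (hHcap : H ≤ cap) :
    ∀ (d : ℕ), d ≤ m → ∀ (A F : Finset E), Disjoint A F → F.card % (b+1) = r →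
      (∃ S ⊆ T, S.card = ρ ^ d ∧ ∀ x ∈ S, m - d ≤ (A ∩ box x).card ∧
        (d + 1) * H ≤ (F ∩ box x).card) →
      EnforcerWins b L A F := by
  intro d
  induction d with
  | zero =>
    intro _ A F hd hr ⟨S, hS, hSc, hS2⟩
    rw [pow_zero] at hSc
    obtain ⟨x, hx⟩ := Finset.card_pos.mp (by omega : 0 < S.card)
    have := hS2 x hx
    exact hlast A F hd hr ⟨x, hS hx, by simpa using this⟩
  | succ d ih =>
    intro hdm A F hd hr ⟨S, hS, hSc, hS2⟩
    have hHk : k ≤ H := by
      by_contra hc
      have : H - k = 0 := by omega
      rw [this, Nat.mul_zero] at hρ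
      have : 1 ≤ (b + cap) * (k + 1) := Nat.mul_pos (by omega) (by omega)
      omega
    have hK : ∀ x ∈ S, H - k ≤ psi box (b + cap) (m - (d + 1)) ((d + 1) * H + k) A F x := by
      intro x hx
      obtain ⟨h1, h2⟩ := hS2 x hx
      unfold psi
      split_ifs with h3
      · have : (d + 1 + 1) * H = (d + 1) * H + H := by ring
        omega
      · have h4 : 1 ≤ (A ∩ box x).card - (m - (d + 1)) := by omega
        have h5 : (b + cap) * 1 ≤ (b + cap) * ((A ∩ box x).card - (m - (d + 1))) :=
          Nat.mul_le_mul_left _ h4
        omega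
    have hKs : ρ ^ (d + 1) * (H - k) ≤
        ∑ x ∈ S, psi box (b + cap) (m - (d + 1)) ((d + 1) * H + k) A F x := by
      rw [← hSc]
      have := Finset.card_nsmul_le_sum S _ _ hK
      simpa using this
    have hρpos : 1 ≤ ρ := by
      by_contra hc
      have : ρ = 0 := by omega
      rw [this, Nat.zero_mul] at hρ
      have : 1 ≤ (b + cap) * (k + 1) := Nat.mul_pos (by omega) (by omega)
      omega
    have hpow : 1 ≤ ρ ^ d := Nat.one_le_pow _ _ hρpos
    refine phase (r := r) (X := ρ ^ d) (g := (d + 1) * H) (j := m - (d + 1)) (k := k) (cap := cap)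
      (K := ρ ^ (d + 1) * (H - k)) hL box S
      (fun x hx y hy => hdisj x (hS hx) y (hS hy)) (fun x hx => hcap x (hS hx))
      (fun x hx => hk x (hS hx)) (by omega) hb ?_ ?_ (F.card + 1) A F (Nat.lt_succ_self _) hd hr
      (fun x hx => (hS2 x hx).1) (fun x hx => ?_) (by omega) (fun _ => hKs)
    · intro A' F' hd' hr' ⟨Q, hQS, hQc, hQ2⟩
      refine ih (by omega) A' F' hd' hr' ⟨Q, hQS.trans hS, hQc, fun x hx => ?_⟩
      have := hQ2 x hx
      exact ⟨by omega, this.2⟩
    · calc (b + cap) * (k * ρ ^ d) + b ≤ (b + cap) * (k * ρ ^ d) + (b + cap) * ρ ^ d := by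
            have : (b + cap) * 1 ≤ (b + cap) * ρ ^ d := Nat.mul_le_mul_left _ hpow
            omega
        _ = ρ ^ d * ((b + cap) * (k + 1)) := by ring
        _ ≤ ρ ^ d * (ρ * (H - k)) := Nat.mul_le_mul_left _ hρ
        _ = ρ ^ (d + 1) * (H - k) := by ring
    · have := hS2 x hx
      have h6 : (d + 1 + 1) * H = (d + 1) * H + H := by ring
      omega

end Game

end Pool.Agent.StarGame
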