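import Pool.Agent.StarGame.Enforcer

namespace Pool.Agent.StarGame

open Finset

/-- the vertices `< n/2` -/
def lowV (n : ℕ) : Finset (Fin n) := univ.filter (fun x => x.val < n / 2)

/-- the vertices `≥ n/2` -/
def highV (n : ℕ) : Finset (Fin n) := univ.filter (fun x => n / 2 ≤ x.val)

/-- the star from `x` to the high vertices -/
def boxK (n : ℕ) (x : Fin n) : Finset (Sym2 (Fin n)) := (highV n).image (fun y => s(x, y))

theorem lowV_card (n : ℕ) : (lowV n).card = n / 2 := by
  unfold lowV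
  have h := Fin.card_filter_val_lt (n := n) (m := n / 2)
  rw [h]
  omega

theorem highV_card (n : ℕ) : (highV n).card = n - n / 2 := by
  have h := Finset.card_filter_add_card_filter_not (s := (univ : Finset (Fin n)))
    (fun x => x.val < n / 2)
  have h1 := lowV_card n
  unfold lowV at h1
  have h2 : (univ.filter (fun x : Fin n => ¬ x.val < n / 2)) = highV n := by
    unfold highV
    ext x
    simp
  rw [h1, h2, Finset.card_univ, Fintype.card_fin] at h
  omega

theorem boxK_card (n : ℕ) (x : Fin n) : (boxK n x).card = n - n / 2 := by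
  unfold boxK
  rw [Finset.card_image_of_injective, highV_card]
  intro y z h
  exact Sym2.congr_right.mp h

theorem boxK_disj {n : ℕ} {x y : Fin n} (hx : x ∈ lowV n) (hy : y ∈ lowV n) (hxy : x ≠ y) :
    Disjoint (boxK n x) (boxK n y) := by
  rw [Finset.disjoint_left]
  intro e he he'
  unfold boxK at he he'
  obtain ⟨u, hu, rfl⟩ := Finset.mem_image.mp he
  obtain ⟨v, hv, h⟩ := Finset.mem_image.mp he'
  unfold highV at hu hv
  unfold lowV at hx hy
  rw [Finset.mem_filter] at hx hy hu hv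
  rw [Sym2.eq_iff] at h
  rcases h with ⟨h1, _⟩ | ⟨h1, h2⟩
  · exact hxy h1.symm
  · rw [h2] at hv
    omega

theorem boxK_sub {n : ℕ} {x : Fin n} (hx : x ∈ lowV n) : boxK n x ⊆ board n := by
  intro e he
  unfold boxK at he
  obtain ⟨u, hu, rfl⟩ := Finset.mem_image.mp he
  rw [mem_board]
  rintro rfl
  unfold highV at hu
  unfold lowV at hx
  rw [Finset.mem_filter] at hx hu
  omega

theorem lev_le_deg {n : ℕ} (A : Finset (Sym2 (Fin n))) (x : Fin n) :
    (A ∩ boxK n x).card ≤ deg A x := by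
  unfold deg
  apply Finset.card_le_card
  intro e he
  rw [Finset.mem_inter] at he
  rw [Finset.mem_filter]
  refine ⟨he.1, ?_⟩
  have h2 := he.2
  unfold boxK at h2
  obtain ⟨u, hu, rfl⟩ := Finset.mem_image.mp h2
  exact Sym2.mem_mk_left x u

theorem boxK_lose {n k : ℕ} (x : Fin n) (A : Finset (Sym2 (Fin n)))
    (h : k ≤ (A ∩ boxK n x).card) : HasStar k A := ⟨x, h.trans (lev_le_deg A x)⟩

/-- Enforcer wins when the last round is short. -/
theorem enforcer_short {n k b s H ρ : ℕ} (hk : 1 ≤ k) (hb : 1 ≤ b) (hs1 : 1 ≤ s) (hs2 : s ≤ H)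
    (hmod : (n.choose 2) % (b + 1) = s % (b + 1))
    (hρ : (b + n) * (k + 1) ≤ ρ * (H - k)) (hρ2 : ρ ^ (k - 1) ≤ n / 2)
    (hH : k * H ≤ n - n / 2) : EnforcerWinsStar n k b := by
  unfold EnforcerWinsStar
  have hHn : H ≤ n := by
    have : 1 * H ≤ k * H := Nat.mul_le_mul_right _ hk
    omega
  obtain ⟨S, hS, hSc⟩ := Finset.exists_subset_card_eq (s := lowV n) (n := ρ ^ (k - 1))
    (by rw [lowV_card]; exact hρ2)
  refine promote (m := k - 1) (cap := n) (H := H) (ρ := ρ) (k := k) (r := s % (b + 1))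
    hasStar_mono (boxK n) (lowV n) (fun x hx y hy hxy => boxK_disj hx hy hxy)
    (fun x _ => by rw [boxK_card]; omega) (fun x _ A h => boxK_lose x A h) (by omega) hb
    ?_ hρ hHn (k - 1) le_rfl ∅ (board n) (Finset.disjoint_empty_left _) ?_ ⟨S, hS, hSc, ?_⟩
  · intro A F hd hr ⟨x, _, h1, h2⟩
    exact final_stage hasStar_mono (boxK n x) (fun A h => boxK_lose x A h) hs1 F.card A F le_rfl hd
      hr (by omega) (hs2.trans h2)
  · rw [board_card]; exact hmod
  · intro x hx
    refine ⟨by omega, ?_⟩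
    have h1 : board n ∩ boxK n x = boxK n x := Finset.inter_eq_right.mpr (boxK_sub (hS hx))
    rw [h1, boxK_card]
    have : k - 1 + 1 = k := by omega
    rw [this]
    exact hH

/-- Enforcer wins for small bias. -/
theorem enforcer_small {n k b H ρ : ℕ} (hb : 1 ≤ b)
    (hρ : (b + n) * (k + 1) ≤ ρ * (H - k)) (hρ2 : ρ ^ k ≤ n / 2)
    (hH : (k + 1) * H ≤ n - n / 2) : EnforcerWinsStar n k b := by
  unfold EnforcerWinsStar
  have hHn : H ≤ n := by
    have : 1 * H ≤ (k + 1) * H := Nat.mul_le_mul_right _ (by omega)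
    omega
  obtain ⟨S, hS, hSc⟩ := Finset.exists_subset_card_eq (s := lowV n) (n := ρ ^ k)
    (by rw [lowV_card]; exact hρ2)
  refine promote (m := k) (cap := n) (H := H) (ρ := ρ) (k := k)
    (r := (board n).card % (b + 1))
    hasStar_mono (boxK n) (lowV n) (fun x hx y hy hxy => boxK_disj hx hy hxy)
    (fun x _ => by rw [boxK_card]; omega) (fun x _ A h => boxK_lose x A h) le_rfl hb
    ?_ hρ hHn k le_rfl ∅ (board n) (Finset.disjoint_empty_left _) rfl ⟨S, hS, hSc, ?_⟩
  · intro A F hd hr ⟨x, _, h1, h2⟩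
    exact enf_of_lose hasStar_mono F.card A F le_rfl (boxK_lose x A h1)
  · intro x hx
    refine ⟨by omega, ?_⟩
    have h1 : board n ∩ boxK n x = boxK n x := Finset.inter_eq_right.mpr (boxK_sub (hS hx))
    rw [h1, boxK_card]
    exact hH

end Pool.Agent.StarGame
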