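import Pool.Agent.StarGame.Avoider
import Pool.Agent.StarGame.EnforcerK

namespace Pool.Agent.StarGame

open Finset

theorem theta_facts (m : ℕ) (hm : 1 ≤ m) (t : ℝ) (ht : 1 ≤ t) :
    ∃ n₀ : ℕ, ∀ n : ℕ, n₀ ≤ n → ∃ θ : ℝ, t ≤ θ ∧ θ ^ m = n ∧
      (n : ℝ) ^ (((m : ℝ) + 1) / m) = n * θ := by
  refine ⟨⌈t ^ m⌉₊, fun n hn => ⟨(n : ℝ) ^ ((m : ℝ)⁻¹), ?_, ?_, ?_⟩⟩
  · have h1 : t ^ m ≤ n := (Nat.le_ceil _).trans (by exact_mod_cast hn)
    have h2 : (t ^ m) ^ ((m : ℝ)⁻¹) = t := Real.pow_rpow_inv_natCast (by linarith) (by omega)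
    rw [← h2]
    exact Real.rpow_le_rpow (by positivity) h1 (by positivity)
  · exact Real.rpow_inv_natCast_pow (by positivity) (by omega)
  · have h1 : t ^ m ≤ n := (Nat.le_ceil _).trans (by exact_mod_cast hn)
    have hn0 : (0 : ℝ) < n := lt_of_lt_of_le (by positivity) h1
    have hm0 : (m : ℝ) ≠ 0 := by positivity
    have h3 : ((m : ℝ) + 1) / m = 1 + (m : ℝ)⁻¹ := by field_simp
    rw [h3, Real.rpow_add hn0, Real.rpow_one]

theorem cd_le (b x : ℕ) : (cd b x : ℝ) ≤ x / ((b : ℝ) + 1) + 1 := by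
  unfold cd
  have h1 : (((x + b) / (b + 1) : ℕ) : ℝ) ≤ ((x + b : ℕ) : ℝ) / ((b + 1 : ℕ) : ℝ) :=
    Nat.cast_div_le
  refine h1.trans ?_
  have h2 : (0 : ℝ) < (b : ℝ) + 1 := by positivity
  push_cast
  rw [div_le_iff₀ h2, add_mul, div_mul_cancel₀ _ h2.ne']
  linarith

theorem aSeq_le {n b m : ℕ} {θ : ℝ} (h4 : 4 ≤ θ) (hθ : θ ^ (m + 1) = n)
    (hD : 4 * n * θ ≤ (b : ℝ) + 1) : ∀ i, i ≤ m → (aSeq n b i : ℝ) ≤ θ ^ (m + 1 - i) := by
  intro i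
  induction i with
  | zero =>
    intro _
    show ((n : ℕ) : ℝ) ≤ _
    rw [Nat.sub_zero, hθ]
  | succ i ih =>
    intro hi
    have h1 := ih (by omega)
    have hn : (0 : ℝ) < n := by rw [← hθ]; positivity
    have h2 : (aSeq n b (i + 1) : ℝ) = 2 * (cd b (aSeq n b i * n) : ℝ) := by
      show ((2 * cd b (aSeq n b i * n) : ℕ) : ℝ) = _
      push_cast; ring
    have h3 := cd_le b (aSeq n b i * n)
    have h5 : m + 1 - i = (m + 1 - (i + 1)) + 1 := by omega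
    rw [h5, pow_succ] at h1
    set p := θ ^ (m + 1 - (i + 1)) with hp
    have hp4 : 4 ≤ p := by
      rw [hp]
      calc (4 : ℝ) ≤ θ ^ 1 := by simpa using h4
        _ ≤ _ := pow_le_pow_right₀ (by linarith) (by omega)
    have h6 : ((aSeq n b i * n : ℕ) : ℝ) / ((b : ℝ) + 1) ≤ p / 4 := by
      have hb : (0 : ℝ) < (b : ℝ) + 1 := by positivity
      rw [div_le_div_iff₀ hb (by norm_num)]
      push_cast
      have h7 : (aSeq n b i : ℝ) * n * 4 ≤ p * θ * n * 4 := by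
        have := mul_le_mul_of_nonneg_right h1 hn.le
        nlinarith
      have h8 : p * (4 * n * θ) ≤ p * ((b : ℝ) + 1) := mul_le_mul_of_nonneg_left hD (by linarith)
      nlinarith
    rw [h2]
    linarith

/-- Avoider wins for large bias. -/
theorem avoider_large {n k b : ℕ} {θ : ℝ} (hk : 2 ≤ k) (h4 : 4 ≤ θ) (hθ : θ ^ (k - 1) = n)
    (hD : 4 * n * θ ≤ (b : ℝ) + 1) : AvoiderWinsStar n k b := by
  have hk1 : k - 2 + 1 = k - 1 := by omega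
  refine avoider_star (m := k - 2) (by omega) (fun f _ _ hf => ⟨?_, by omega⟩)
  have h1 := aSeq_le (m := k - 2) h4 (by rw [hk1]; exact hθ) hD (k - 2) le_rfl
  have h2 : k - 2 + 1 - (k - 2) = 1 := by omega
  rw [h2, pow_one] at h1
  have h3 : (f : ℝ) ≤ aSeq n b (k - 2) * n := by exact_mod_cast hf
  have hn : (0 : ℝ) ≤ n := by positivity
  have h5 : (f : ℝ) ≤ (b : ℝ) + 1 := by nlinarith
  exact_mod_cast h5

/-- Avoider wins if the last round is long. -/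
theorem avoider_long {n k b : ℕ} {θ : ℝ} (hk : 1 ≤ k) (h4 : 4 ≤ θ) (hθ : θ ^ k = n)
    (hD : 4 * n * θ ≤ (b : ℝ) + 1) (hr : n * θ < ((n.choose 2 % (b + 1) : ℕ) : ℝ)) :
    AvoiderWinsStar n k b := by
  have hk1 : k - 1 + 1 = k := by omega
  refine avoider_star (m := k - 1) (by omega) (fun f _ hfm hf => ?_)
  exfalso
  have h1 := aSeq_le (m := k - 1) h4 (by rw [hk1]; exact hθ) hD (k - 1) le_rfl
  have h2 : k - 1 + 1 - (k - 1) = 1 := by omega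
  rw [h2, pow_one] at h1
  have h3 : (f : ℝ) ≤ aSeq n b (k - 1) * n := by exact_mod_cast hf
  have hn : (0 : ℝ) ≤ n := by positivity
  have h5 : ((n.choose 2 % (b + 1) : ℕ) : ℝ) ≤ f := by
    rw [← hfm]
    exact_mod_cast Nat.mod_le _ _
  nlinarith

theorem half_pow {n m : ℕ} {θ : ℝ} (hm : 2 ≤ m) (h0 : 0 ≤ θ) (hθ : θ ^ m = n) :
    ⌊θ / 2⌋₊ ^ m ≤ n / 2 := by
  have h1 : (⌊θ / 2⌋₊ : ℝ) ≤ θ / 2 := Nat.floor_le (by linarith)
  have h2 : ((⌊θ / 2⌋₊ ^ m : ℕ) : ℝ) ≤ (θ / 2) ^ m := by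
    push_cast
    exact pow_le_pow_left₀ (by positivity) h1 m
  rw [div_pow, hθ] at h2
  have h3 : (4 : ℝ) ≤ 2 ^ m := by
    calc (4 : ℝ) = 2 ^ 2 := by norm_num
      _ ≤ 2 ^ m := pow_le_pow_right₀ (by norm_num) hm
  have h4 : (n : ℝ) / 2 ^ m ≤ n / 4 := div_le_div_of_nonneg_left (by positivity) (by norm_num) h3
  have h5 : (((⌊θ / 2⌋₊ ^ m) * 4 : ℕ) : ℝ) ≤ (n : ℕ) := by
    push_cast at h2 ⊢
    linarith
  have h6 : (⌊θ / 2⌋₊ ^ m) * 4 ≤ n := by exact_mod_cast h5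
  omega

theorem rho_cond {n k κ b : ℕ} {θ : ℝ} (hκ : 1 ≤ κ) (h4 : 4 ≤ θ) (hn : 8 * κ * (k + 1) ≤ n)
    (hb : ((b : ℝ) + n) * (32 * κ * (k + 1)) ≤ n * θ) :
    (b + n) * (k + 1) ≤ ⌊θ / 2⌋₊ * (n / (4 * κ) - k) := by
  have hκr : (1 : ℝ) ≤ κ := by exact_mod_cast hκ
  have hnr : 8 * (κ : ℝ) * (k + 1) ≤ n := by exact_mod_cast hn
  have h1 : (k + 1) * 2 ≤ n / (4 * κ) := by
    rw [Nat.le_div_iff_mul_le (by omega)]
    calc (k + 1) * 2 * (4 * κ) = 8 * κ * (k + 1) := by ring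
      _ ≤ n := hn
  have h2 : (n : ℝ) / (4 * κ) < (n / (4 * κ) : ℕ) + 1 := by
    have := Nat.lt_floor_add_one ((n : ℝ) / ((4 * κ : ℕ) : ℝ))
    rw [Nat.floor_div_eq_div] at this
    push_cast at this ⊢
    exact this
  have h3 : (n : ℝ) / (8 * κ) ≤ ((n / (4 * κ) - k : ℕ) : ℝ) := by
    rw [Nat.cast_sub (by omega)]
    have h5 : (k : ℝ) + 1 ≤ n / (8 * κ) := by
      rw [le_div_iff₀ (by positivity)]
      nlinarith
    have h6 : (n : ℝ) / (4 * κ) = 2 * (n / (8 * κ)) := by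
      field_simp
      ring
    linarith
  have h7 : θ / 4 ≤ (⌊θ / 2⌋₊ : ℝ) := by
    have := Nat.lt_floor_add_one (θ / 2)
    linarith
  have h8 : (θ / 4) * (n / (8 * κ)) ≤ (⌊θ / 2⌋₊ : ℝ) * ((n / (4 * κ) - k : ℕ) : ℝ) :=
    mul_le_mul h7 h3 (by positivity) (by positivity)
  have h9 : ((b : ℝ) + n) * (k + 1) ≤ (θ / 4) * (n / (8 * κ)) := by
    rw [div_mul_div_comm, le_div_iff₀ (by positivity)]
    calc ((b : ℝ) + n) * (k + 1) * (4 * (8 * κ)) = ((b : ℝ) + n) * (32 * κ * (k + 1)) := by ring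
      _ ≤ n * θ := hb
      _ = θ * n := by ring
  have h10 := h9.trans h8
  exact_mod_cast h10

end Pool.Agent.StarGame
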